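import Pool.Agent.H49.TRN.S1

set_option autoImplicit false

namespace Pool.TRN

open MvPolynomial Pool.FOS

theorem t_mon : MONStmt := by
  intro n k d s t hk hst hg
  obtain ⟨P, hP, h⟩ := hg
  refine ⟨P, hP, fun F hF he => ?_⟩
  obtain ⟨g, hg, e⟩ := h F hF he
  obtain ⟨u, rfl⟩ := Nat.exists_eq_add_of_le hst
  refine ⟨Fin.append g (fun _ => 0), ?_, ?_⟩
  · intro i
    refine Fin.addCases (fun j => ?_) (fun j => ?_) i
    · rw [Fin.append_left]; exact hg j
    · rw [Fin.append_right]; exact isHomogeneous_zero _ _ _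
  · rw [Fin.sum_univ_add, e]
    have h0 : (0 : MvPolynomial (Fin n) ℂ) ^ k = 0 := zero_pow (by omega)
    simp [Fin.append_left, Fin.append_right, h0]

end Pool.TRN
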