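import Pool.Agent.H49.TRN.S1

set_option autoImplicit false

namespace Pool.TRN

open MvPolynomial Pool.FOS

theorem t_cnt : CNTStmt := by
  intro D
  have e : {m : Fin 3 →₀ ℕ // m.degree = D} ≃ Sym (Fin 3) D :=
    (Equiv.subtypeEquivRight (fun m => by
      rw [Finsupp.degree_eq_sum, Finsupp.sum_fintype _ _ (fun _ => rfl)]; rfl)).trans
      (Sym.equivNatSum (Fin 3) D).symm
  rw [Nat.card_congr e, Nat.card_eq_fintype_card, Sym.card_sym_eq_choose, Fintype.card_fin]
  have h2 : 3 + D - 1 = D + 2 := by omega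
  have h5 : (D + 2).choose D = (D + 2).choose 2 := by
    rw [← Nat.choose_symm (show 2 ≤ D + 2 by omega)]; rfl
  rw [h2, h5, Nat.choose_two_right]
  have h3 : Even ((D + 2) * (D + 2 - 1)) := Nat.even_mul_pred_self (D + 2)
  obtain ⟨r, hr⟩ := h3
  have h4 : D + 2 - 1 = D + 1 := by omega
  rw [h4] at hr ⊢
  rw [hr, ← two_mul, Nat.mul_div_cancel_left _ (by norm_num : 0 < 2)]
  linarith [hr, mul_comm (D + 1) (D + 2)]

end Pool.TRN
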